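import Pool.Agent.Helper11.CN.Forms

/-!
# MP_87fff7_nt: a criterion for Q2

The number `c(N)` of Carmichael numbers up to `N` satisfies `c(N) / N ^ (1 - ε) → ∞` for every
`ε > 0` if and only if for every `ε > 0` and all large `y` there are `L ≤ exp y` and
`z ≥ y ^ (1 / ε)` such that at least `z ^ (1 - ε)` primes `p ≤ z` satisfy `p - 1 ∣ L`.
-/

set_option autoImplicit false

namespace Pool.Agent.Results.MP_87fff7_nt.CarmichaelCriterion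

theorem result :
    (∀ ε : ℝ, 0 < ε → Filter.Tendsto
      (fun N : ℕ => (({n : ℕ | n ≤ N ∧ 1 < n ∧ ¬ n.Prime ∧
        ∀ b : ℕ, Nat.Coprime b n → b ^ (n - 1) ≡ 1 [MOD n]}.ncard : ℕ) : ℝ) /
          (N : ℝ) ^ (1 - ε)) Filter.atTop Filter.atTop) ↔
    ∀ ε : ℝ, 0 < ε → ∃ y0 : ℝ, ∀ y : ℝ, y0 ≤ y → ∃ (L : ℕ) (z : ℝ), 1 ≤ L ∧
      (L : ℝ) ≤ Real.exp y ∧ y ^ (1 / ε) ≤ z ∧
      z ^ (1 - ε) ≤ (({p : ℕ | p.Prime ∧ (p : ℝ) ≤ z ∧ p - 1 ∣ L}.ncard : ℕ) : ℝ) :=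
  (Pool.Agent.Helper11.CN.tendsto_iff _).trans Pool.Agent.Helper11.CN.carm_crit

end Pool.Agent.Results.MP_87fff7_nt.CarmichaelCriterion
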