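import Pool.Agent.Helper34.CA2.Fin
import Pool.Agent.Helper18.CB.Close

/-!
# MP_87fff7_nt: a lower bound for the number of Carmichael numbers

The number of Carmichael numbers up to `N` is at least `N ^ β` for all large `N`, for every
`β < 1 - exp (-1/2) / 2 = 0.6967...`.
-/

set_option autoImplicit false

namespace Pool.Agent.Results.MP_87fff7_nt.LowerBound

/-- Carmichael numbers: composite `n` with `a ^ (n - 1) ≡ 1 (mod n)` for all `a` coprime to `n`. -/
def IsCarmichael (n : ℕ) : Prop :=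
  1 < n ∧ ¬ n.Prime ∧ ∀ a : ℕ, a.Coprime n → a ^ (n - 1) ≡ 1 [MOD n]

/-- The Carmichael numbers `n ≤ N` all of whose prime factors exceed `T`. -/
def carmichaels (N : ℕ) (T : ℝ) : Set ℕ :=
  {n | n ≤ N ∧ IsCarmichael n ∧ ∀ p : ℕ, p.Prime → p ∣ n → T < (p : ℝ)}

/-- For every `β < 1 - exp (-1/2) / 2 = 0.6967...` and every `γ < 2 * exp (1/2) = 3.2974...`, for
all large `N` there are at least `N ^ β` Carmichael numbers `n ≤ N` all of whose prime factors
exceed `(log N) ^ γ`. -/
theorem result (β γ : ℝ) (hβ : β < 1 - Real.exp (-(1 / 2)) / 2)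
    (hγ : γ < 2 * Real.exp (1 / 2)) :
    ∃ N0 : ℕ, ∀ N : ℕ, N0 ≤ N →
      (N : ℝ) ^ β ≤ ((carmichaels N (Real.log N ^ γ)).ncard : ℝ) := by
  have he : Real.exp (-(1 / 2)) * Real.exp (1 / 2) = 1 := by
    rw [← Real.exp_add]
    norm_num
  have hp1 : 0 < Real.exp (-(1 / 2)) := Real.exp_pos _
  have hp3 : Real.exp (-(1 / 2)) < 1 := by
    rw [← Real.exp_zero]
    exact Real.exp_lt_exp.mpr (by norm_num)
  have hγ' : γ < 1 / (Real.exp (-(1 / 2)) / 2) := by
    have h1 : 1 / (Real.exp (-(1 / 2)) / 2) = 2 * Real.exp (1 / 2) := by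
      rw [div_eq_iff (by positivity)]
      linear_combination (-1 : ℝ) * he
    rw [h1]
    exact hγ
  obtain ⟨N0, h⟩ := Pool.Agent.Helper34.CA2.lower (θ₀ := Real.exp (-(1 / 2)) / 2)
    (by positivity) (by linarith) Pool.Agent.Helper18.CB.smooth_half hβ hγ'
  refine ⟨N0, fun N hN => ?_⟩
  have hfin : (carmichaels N (Real.log N ^ γ)).Finite :=
    (Set.finite_Iic N).subset fun n hn => hn.1
  have h2 := h N hN hfin.toFinset (fun n => by
    rw [Set.Finite.mem_toFinset]
    exact Iff.rfl)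
  rw [Set.ncard_eq_toFinset_card _ hfin]
  exact h2

end Pool.Agent.Results.MP_87fff7_nt.LowerBound
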