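import Pool.Agent.Helper11.CN.Forms

/-!
# MP_87fff7_nt: a criterion for Q1 and its analogue for every base `a ≥ 2`

The number `C_a(N)` of composite `n ≤ N` with `a ^ (n - 1) ≡ 1 mod n` satisfies
`C_a(N) / N ^ (1 - ε) → ∞` for every `ε > 0` if and only if for every `ε > 0` and all large `y`
there are `L ≤ exp y` and `z ≥ y ^ (1 / ε)` such that at least `z ^ (1 - ε)` primes `p ≤ z`
divide `a ^ L - 1`.
-/

set_option autoImplicit false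

namespace Pool.Agent.Results.MP_87fff7_nt.PseudoprimeCriterion

theorem result (a : ℕ) (ha : 2 ≤ a) :
    (∀ ε : ℝ, 0 < ε → Filter.Tendsto
      (fun N : ℕ => (({n : ℕ | n ≤ N ∧ 1 < n ∧ ¬ n.Prime ∧
        a ^ (n - 1) ≡ 1 [MOD n]}.ncard : ℕ) : ℝ) /
          (N : ℝ) ^ (1 - ε)) Filter.atTop Filter.atTop) ↔
    ∀ ε : ℝ, 0 < ε → ∃ y0 : ℝ, ∀ y : ℝ, y0 ≤ y → ∃ (L : ℕ) (z : ℝ), 1 ≤ L ∧
      (L : ℝ) ≤ Real.exp y ∧ y ^ (1 / ε) ≤ z ∧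
      z ^ (1 - ε) ≤ (({p : ℕ | p.Prime ∧ (p : ℝ) ≤ z ∧ p ∣ a ^ L - 1}.ncard : ℕ) : ℝ) :=
  (Pool.Agent.Helper11.CN.tendsto_iff _).trans (Pool.Agent.Helper11.CN.pseu_crit ha)

end Pool.Agent.Results.MP_87fff7_nt.PseudoprimeCriterion
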